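import Mathlib

namespace Pool.Agent.Helper37.CDC8

variable {V E : Type*}

/-- `C` is the edge set of a circuit of the multigraph with edge ends `ends`: there are `n ≥ 1`
distinct vertices `v i` and distinct edges `e i` (`i` modulo `n`) such that `e i` joins `v i` and
`v (i + 1)`, and `C` consists of the `e i`. (A loop is a circuit with `n = 1`, two parallel edges
form a circuit with `n = 2`.) -/
def IsCircuit (ends : E → Sym2 V) (C : Set E) : Prop :=
  ∃ (n : ℕ) (v : ZMod n → V) (e : ZMod n → E), 1 ≤ n ∧ Function.Injective v ∧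
    Function.Injective e ∧ (∀ i, ends (e i) = s(v i, v (i + 1))) ∧ Set.range e = C

section walk

variable (ends : E → Sym2 V)

/-- a closed piece of a non-backtracking walk is a circuit -/
lemma circuit_of_seq (x : ℕ → V) (f : ℕ → E) (hf : ∀ k, ends (f k) = s(x k, x (k + 1)))
    (hne : ∀ k, f (k + 1) ≠ f k) (hl : ∀ k, x k ≠ x (k + 1)) (i j : ℕ) (hij : i < j)
    (hcl : x i = x j) (hinj : ∀ a b, a < b → b < j → x a ≠ x b) :
    IsCircuit ends (f '' Set.Ico i j) := by
  obtain ⟨n, rfl⟩ : ∃ n, j = i + n := ⟨j - i, by omega⟩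
  have hn1 : 1 ≤ n := by omega
  have hn2 : 2 ≤ n := by
    by_contra h
    have : n = 1 := by omega
    subst this
    exact hl i hcl
  haveI : NeZero n := ⟨by omega⟩
  have hval : ∀ a : ZMod n, a.val < n := fun a => ZMod.val_lt a
  have hxinj : ∀ a b : ℕ, a < n → b < n → x (i + a) = x (i + b) → a = b := by
    intro a b ha hb h
    rcases lt_trichotomy a b with hab | hab | hab
    · exact absurd h (hinj _ _ (by omega) (by omega))
    · exact hab
    · exact absurd h.symm (hinj _ _ (by omega) (by omega))
  have hvinj : Function.Injective (fun a : ZMod n => x (i + a.val)) := by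
    intro a b h
    exact ZMod.val_injective n (hxinj _ _ (hval a) (hval b) h)
  have hstep : ∀ a : ZMod n, x (i + (a + 1).val) = x (i + a.val + 1) := by
    intro a
    haveI : Fact (1 < n) := ⟨by omega⟩
    rw [ZMod.val_add, ZMod.val_one]
    by_cases h : a.val + 1 < n
    · rw [Nat.mod_eq_of_lt h, ← add_assoc]
    · have h1 : a.val + 1 = n := by have := hval a; omega
      rw [h1, Nat.mod_self, add_zero, hcl, add_assoc, h1]
  have hends : ∀ a : ZMod n, ends (f (i + a.val)) = s(x (i + a.val), x (i + (a + 1).val)) := by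
    intro a
    rw [hf, hstep]
  refine ⟨n, fun a => x (i + a.val), fun a => f (i + a.val), hn1, hvinj, ?_, hends, ?_⟩
  · intro a b h
    by_contra hab
    have h' : f (i + a.val) = f (i + b.val) := h
    have h1 := hends a
    have h2 := hends b
    rw [h', h2, Sym2.eq_iff] at h1
    rcases h1 with ⟨h1, _⟩ | ⟨h1, h3⟩
    · exact hab (hvinj h1.symm)
    · have e1 : b = a + 1 := hvinj h1
      have e2 : b + 1 = a := hvinj h3
      have e3 : ((2 : ℕ) : ZMod n) = 0 := by
        have : a + 1 + 1 = a := by rw [← e1, e2]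
        have h5 : (1 : ZMod n) + 1 = 0 := by
          have := congrArg (fun z => z - a) this
          simpa [add_assoc, add_sub_cancel_left] using this
        push_cast
        rw [← h5]; norm_num
      rw [ZMod.natCast_eq_zero_iff] at e3
      have hn : n = 2 := le_antisymm (Nat.le_of_dvd (by norm_num) e3) hn2
      subst hn
      have hva := hval a
      have hvb := hval b
      have hab' : a.val ≠ b.val := fun h => hab (ZMod.val_injective 2 h)
      rcases Nat.lt_or_ge a.val 1 with h4 | h4
      · have h6 : a.val = 0 := by omega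
        have h7 : b.val = 1 := by omega
        rw [h6, h7] at h'
        exact hne i h'.symm
      · have h6 : a.val = 1 := by omega
        have h7 : b.val = 0 := by omega
        rw [h6, h7] at h'
        exact hne i h'
  · ext y
    constructor
    · rintro ⟨a, rfl⟩
      exact ⟨i + a.val, ⟨by omega, by have := hval a; omega⟩, rfl⟩
    · rintro ⟨k, ⟨h1, h2⟩, rfl⟩
      refine ⟨((k - i : ℕ) : ZMod n), ?_⟩
      have : ((k - i : ℕ) : ZMod n).val = k - i := ZMod.val_natCast_of_lt (by omega)
      simp only [this]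
      congr 1
      omega

/-- a finite nonempty loopless edge set in which one can always continue contains a circuit -/
lemma exists_circuit [Finite V] (D : Set E) (hD : D.Nonempty)
    (hl : ∀ e ∈ D, ¬ (ends e).IsDiag)
    (hcont : ∀ e ∈ D, ∀ w ∈ ends e, ∃ e' ∈ D, e' ≠ e ∧ w ∈ ends e') :
    ∃ C ⊆ D, C.Nonempty ∧ IsCircuit ends C := by
  classical
  -- darts
  let X := {p : V × E // p.2 ∈ D ∧ p.1 ∈ ends p.2}
  have hnext : ∀ p : X, ∃ q : X, ends p.1.2 = s(p.1.1, q.1.1) ∧ q.1.2 ≠ p.1.2 := by
    rintro ⟨⟨v, e⟩, he, hv⟩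
    obtain ⟨w, hw⟩ := Sym2.mem_iff_exists.1 hv
    have hwe : w ∈ ends e := by rw [hw]; exact Sym2.mem_mk_right v w
    obtain ⟨e', he', hne, hwe'⟩ := hcont e he w hwe
    exact ⟨⟨(w, e'), he', hwe'⟩, hw, hne⟩
  choose nx hnx using hnext
  obtain ⟨e0, he0⟩ := hD
  obtain ⟨v0, hv0⟩ : ∃ v, v ∈ ends e0 := by
    induction h : ends e0 using Sym2.ind with
    | _ a b => exact ⟨a, by simp⟩
  let st : ℕ → X := fun k => nx^[k] ⟨(v0, e0), he0, hv0⟩
  have hst : ∀ k, st (k + 1) = nx (st k) := fun k => Function.iterate_succ_apply' nx k _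
  let x : ℕ → V := fun k => (st k).1.1
  let f : ℕ → E := fun k => (st k).1.2
  have hf : ∀ k, ends (f k) = s(x k, x (k + 1)) := by
    intro k
    have := (hnx (st k)).1
    rw [← hst] at this
    exact this
  have hne : ∀ k, f (k + 1) ≠ f k := by
    intro k
    have := (hnx (st k)).2
    rw [← hst] at this
    exact this
  have hfD : ∀ k, f k ∈ D := fun k => (st k).2.1
  have hloop : ∀ k, x k ≠ x (k + 1) := by
    intro k h
    apply hl _ (hfD k)
    rw [hf, Sym2.mk_isDiag_iff]
    exact h
  have hex : ∃ j, ∃ i < j, x i = x j := by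
    by_contra hcon
    push Not at hcon
    have : Function.Injective x := by
      intro a b hab
      rcases lt_trichotomy a b with h | h | h
      · exact absurd hab (hcon b a h)
      · exact h
      · exact absurd hab.symm (hcon a b h)
    exact not_injective_infinite_finite x this
  obtain ⟨i, hij, hcl⟩ := Nat.find_spec hex
  refine ⟨f '' Set.Ico i (Nat.find hex), ?_, ?_, circuit_of_seq ends x f hf hne hloop i _ hij hcl ?_⟩
  · rintro _ ⟨k, _, rfl⟩
    exact hfD k
  · exact ⟨f i, i, ⟨le_refl _, hij⟩, rfl⟩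
  · intro a b hab hb h
    exact Nat.find_min hex hb ⟨a, hab, h⟩

end walk

end Pool.Agent.Helper37.CDC8
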