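import Mathlib
import Pool.Agent.Helper37.CDC8.Circuits

namespace Pool.Agent.Helper37.CDC8

variable {V E : Type*}

open Classical in
/-- number of ends of `e` at `v` -/
noncomputable def inc (s t : E → V) (e : E) (v : V) : ℕ :=
  (if s e = v then 1 else 0) + (if t e = v then 1 else 0)

open Classical in
lemma inc_eq_of_ends (s t : E → V) (e : E) (a b v : V) (h : s(s e, t e) = s(a, b)) :
    inc s t e v = (if a = v then 1 else 0) + (if b = v then 1 else 0) := by
  unfold inc
  rw [Sym2.eq_iff] at h
  rcases h with ⟨h1, h2⟩ | ⟨h1, h2⟩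
  · rw [h1, h2]
  · rw [h1, h2, add_comm]

lemma inc_even_circuit (s t : E → V) (C : Finset E)
    (hC : IsCircuit (fun e => s(s e, t e)) (C : Set E)) (v : V) :
    Even (∑ e ∈ C, inc s t e v) := by
  classical
  obtain ⟨n, x, f, hn, hx, hf, hends, hr⟩ := hC
  haveI : NeZero n := ⟨by omega⟩
  have hCe : C = Finset.univ.image f := by
    ext e
    rw [← Finset.mem_coe, ← hr]
    simp
  rw [hCe, Finset.sum_image (fun a _ b _ h => hf h)]
  have : ∀ i ∈ (Finset.univ : Finset (ZMod n)), inc s t (f i) v
      = (if x i = v then 1 else 0) + (if x (i + 1) = v then 1 else 0) :=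
    fun i _ => inc_eq_of_ends s t (f i) _ _ v (hends i)
  rw [Finset.sum_congr rfl this, Finset.sum_add_distrib]
  have h2 : ∑ i : ZMod n, (if x (i + 1) = v then 1 else 0) = ∑ i : ZMod n, (if x i = v then 1 else 0) :=
    Equiv.sum_comp (Equiv.addRight (1 : ZMod n)) (fun i => if x i = v then 1 else 0)
  rw [h2]
  exact ⟨_, rfl⟩

lemma loop_circuit (s t : E → V) (e : E) (h : s e = t e) :
    IsCircuit (fun e => s(s e, t e)) ({e} : Set E) := by
  refine ⟨1, fun _ => s e, fun _ => e, le_refl _, ?_, ?_, ?_, ?_⟩
  · intro a b _; exact Subsingleton.elim a b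
  · intro a b _; exact Subsingleton.elim a b
  · intro i; simp [h]
  · ext y; simp [eq_comm]

lemma decomp_aux [Finite V] (s t : E → V) (n : ℕ) : ∀ D : Finset E, D.card = n →
    (∀ v, Even (∑ e ∈ D, inc s t e v)) →
    ∃ L : List (Set E), (∀ C ∈ L, IsCircuit (fun e => s(s e, t e)) C) ∧
      L.Pairwise Disjoint ∧ ∀ e, (∃ C ∈ L, e ∈ C) ↔ e ∈ D := by
  classical
  induction n using Nat.strong_induction_on with
  | _ n ih =>
  intro D hDn hD
  rcases D.eq_empty_or_nonempty with rfl | hne
  · exact ⟨[], by simp, List.Pairwise.nil, by simp⟩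
  -- it is enough to find a circuit inside `D`
  suffices hC : ∃ C : Finset E, C ⊆ D ∧ C.Nonempty ∧ IsCircuit (fun e => s(s e, t e)) (C : Set E) by
    obtain ⟨C, hCD, hCne, hC⟩ := hC
    have hcard : (D \ C).card < n := by
      rw [Finset.card_sdiff_of_subset hCD, ← hDn]
      have := hCne.card_pos
      have := hne.card_pos
      omega
    obtain ⟨L, h1, h2, h3⟩ := ih _ hcard (D \ C) rfl (by
      intro v
      have hs := Finset.sum_sdiff hCD (f := fun e => inc s t e v)
      have e1 := hD v
      rw [← hs, Nat.even_add] at e1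
      exact e1.2 (inc_even_circuit s t C hC v))
    refine ⟨(C : Set E) :: L, ?_, ?_, ?_⟩
    · intro C' hC'
      rcases List.mem_cons.1 hC' with rfl | h
      · exact hC
      · exact h1 _ h
    · rw [List.pairwise_cons]
      refine ⟨?_, h2⟩
      intro C' hC'
      rw [Set.disjoint_left]
      intro e he he'
      have := (h3 e).1 ⟨C', hC', he'⟩
      exact (Finset.mem_sdiff.1 this).2 he
    · intro e
      simp only [List.mem_cons, exists_eq_or_imp, h3, Finset.mem_coe, Finset.mem_sdiff]
      constructor
      · rintro (h | h)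
        · exact hCD h
        · exact h.1
      · intro h
        by_cases hc : e ∈ C
        · exact Or.inl hc
        · exact Or.inr ⟨h, hc⟩
  by_cases hloop : ∃ e ∈ D, s e = t e
  · obtain ⟨e, he, hst⟩ := hloop
    refine ⟨{e}, by simpa using he, Finset.singleton_nonempty e, ?_⟩
    rw [Finset.coe_singleton]
    exact loop_circuit s t e hst
  push Not at hloop
  obtain ⟨C, hCD, hCne, hC⟩ := exists_circuit (fun e => s(s e, t e)) (D : Set E)
    (by simpa using hne) (fun e he h => hloop e he (by simpa using h)) (by
      intro e he w hw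
      have he' : e ∈ D := he
      by_contra hcon
      push Not at hcon
      have hz : ∀ e' ∈ D.erase e, inc s t e' w = 0 := by
        intro e' he''
        have hm := Finset.mem_erase.1 he''
        have := hcon e' hm.2 hm.1
        rw [Sym2.mem_iff] at this
        push Not at this
        unfold inc
        rw [if_neg (fun h => this.1 h.symm), if_neg (fun h => this.2 h.symm)]
      have h1 : inc s t e w = 1 := by
        have hst := hloop e he'
        unfold inc
        rw [Sym2.mem_iff] at hw
        rcases hw with rfl | rfl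
        · rw [if_pos rfl, if_neg (fun h => hst h.symm)]
        · rw [if_neg hst, if_pos rfl]
      have h2 := hD w
      rw [← Finset.add_sum_erase D _ he', Finset.sum_eq_zero hz, h1] at h2
      exact absurd h2 (by decide))
  have hfin : C.Finite := D.finite_toSet.subset hCD
  refine ⟨hfin.toFinset, ?_, ?_, ?_⟩
  · intro e he
    exact hCD (by simpa using he)
  · simpa using hCne
  · rw [Set.Finite.coe_toFinset]
    exact hC

/-- an even edge set is an edge-disjoint union of circuits -/
lemma decomp [Finite V] (s t : E → V) (D : Finset E)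
    (hD : ∀ v, Even (∑ e ∈ D, inc s t e v)) :
    ∃ L : List (Set E), (∀ C ∈ L, IsCircuit (fun e => s(s e, t e)) C) ∧
      L.Pairwise Disjoint ∧ ∀ e, (∃ C ∈ L, e ∈ C) ↔ e ∈ D :=
  decomp_aux s t _ D rfl hD

end Pool.Agent.Helper37.CDC8
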