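import Mathlib
import Pool.Agent.Helper37.CDC8.Decomp

namespace Pool.Agent.Helper37.CDC8

/-- the multigraph with edge ends `ends` has no bridge: for every edge `e` the two ends of `e`
are joined by a walk that avoids `e` -/
def Bridgeless {V E : Type*} (ends : E → Sym2 V) : Prop :=
  ∀ (e : E) (a b : V), ends e = s(a, b) →
    Relation.ReflTransGen (fun x y => ∃ f, f ≠ e ∧ ends f = s(x, y)) a b

/-- the statement proved by the algebraic part: every finite multigraph without one-edge cuts has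
eight even edge sets covering every edge exactly twice -/
def EightEven : Prop :=
  ∀ (V E : Type) [Fintype V] [Fintype E] [DecidableEq V] (s t : E → V),
    (∀ X : Finset V, (Finset.univ.filter (fun e => ¬ (s e ∈ X ↔ t e ∈ X))).card ≠ 1) →
    ∃ D : Fin 8 → Finset E,
      (∀ i v, Even (((D i).filter (fun e => s e = v)).card +
        ((D i).filter (fun e => t e = v)).card)) ∧
      ∀ e, {i | e ∈ D i}.ncard = 2

lemma cross_of_walk {V : Type*} (R : V → V → Prop) (X : Set V) {a b : V}
    (h : Relation.ReflTransGen R a b) (ha : a ∈ X) (hb : b ∉ X) :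
    ∃ x y, R x y ∧ x ∈ X ∧ y ∉ X := by
  induction h with
  | refl => exact absurd ha hb
  | @tail c d _ hbc ih =>
    by_cases hc : c ∈ X
    · exact ⟨c, d, hbc, hc, hb⟩
    · exact ih hc

lemma packaging_type (H : EightEven) {V E : Type} [Finite V] [Finite E] (s t : E → V)
    (hb : Bridgeless (fun e => s(s e, t e))) :
    ∃ L : Fin 8 → List (Set E), (∀ i, ∀ C ∈ L i, IsCircuit (fun e => s(s e, t e)) C) ∧
      (∀ i, (L i).Pairwise Disjoint) ∧ ∀ e, {i | ∃ C ∈ L i, e ∈ C}.ncard = 2 := by
  classical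
  have := Fintype.ofFinite V
  have := Fintype.ofFinite E
  obtain ⟨D, hD, hD2⟩ := H V E s t (by
    intro X hX
    rw [Finset.card_eq_one] at hX
    obtain ⟨e, he⟩ := hX
    have hin : ∀ f, ¬ (s f ∈ X ↔ t f ∈ X) ↔ f = e := by
      intro f
      have : f ∈ Finset.univ.filter (fun e => ¬ (s e ∈ X ↔ t e ∈ X)) ↔ f ∈ ({e} : Finset E) := by
        rw [he]
      simpa using this
    have hcr : ∀ a b, s(s e, t e) = s(a, b) → a ∈ X → b ∉ X → False := by
      intro a b hab ha hb'
      obtain ⟨x, y, ⟨f, hfe, hf⟩, hx, hy⟩ :=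
        cross_of_walk _ (X : Set V) (hb e a b hab) (by simpa using ha) (by simpa using hb')
      apply hfe
      rw [← hin]
      rw [Sym2.eq_iff] at hf
      rcases hf with ⟨h1, h2⟩ | ⟨h1, h2⟩
      · rw [h1, h2]
        intro h
        exact hy (h.1 hx)
      · rw [h1, h2]
        intro h
        exact hy (h.2 hx)
    have he' := (hin e).2 rfl
    by_cases hs : s e ∈ X
    · have ht : t e ∉ X := fun h => he' ⟨fun _ => h, fun _ => hs⟩
      exact hcr _ _ rfl hs ht
    · have ht : t e ∈ X := by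
        by_contra h
        exact he' ⟨fun h' => absurd h' hs, fun h' => absurd h' h⟩
      exact hcr _ _ Sym2.eq_swap ht hs)
  have hdec : ∀ i, ∃ L : List (Set E), (∀ C ∈ L, IsCircuit (fun e => s(s e, t e)) C) ∧
      L.Pairwise Disjoint ∧ ∀ e, (∃ C ∈ L, e ∈ C) ↔ e ∈ D i := by
    intro i
    apply decomp s t (D i)
    intro v
    have := hD i v
    rw [Finset.card_filter, Finset.card_filter, ← Finset.sum_add_distrib] at this
    convert this using 1
    apply Finset.sum_congr rfl
    intro x _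
    unfold inc
    congr
  choose L h1 h2 h3 using hdec
  refine ⟨L, h1, h2, ?_⟩
  intro e
  simp only [h3]
  exact hD2 e

lemma IsCircuit.map {V E V' E' : Type*} {ends : E → Sym2 V} {ends' : E' → Sym2 V'}
    (fV : V → V') (hV : Function.Injective fV) (fE : E → E') (hE : Function.Injective fE)
    (h : ∀ e, ends' (fE e) = (ends e).map fV) {C : Set E} (hC : IsCircuit ends C) :
    IsCircuit ends' (fE '' C) := by
  obtain ⟨n, v, e, hn, hv, he, hends, hr⟩ := hC
  refine ⟨n, fV ∘ v, fE ∘ e, hn, hV.comp hv, hE.comp he, ?_, ?_⟩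
  · intro i
    simp only [Function.comp_apply, h, hends, Sym2.map_mk]
  · rw [Set.range_comp, hr]

theorem packaging (H : EightEven) {V E : Type*} [Finite V] [Finite E] (ends : E → Sym2 V)
    (hb : Bridgeless ends) :
    ∃ L : Fin 8 → List (Set E), (∀ i, ∀ C ∈ L i, IsCircuit ends C) ∧
      (∀ i, (L i).Pairwise Disjoint) ∧ ∀ e, {i | ∃ C ∈ L i, e ∈ C}.ncard = 2 := by
  classical
  obtain ⟨m, ⟨φ⟩⟩ := Finite.exists_equiv_fin E
  obtain ⟨k, ⟨ψ⟩⟩ := Finite.exists_equiv_fin V
  -- pick ends
  have hst : ∀ e, ∃ p : V × V, ends e = s(p.1, p.2) := by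
    intro e
    induction h : ends e using Sym2.ind with
    | _ a b => exact ⟨(a, b), rfl⟩
  choose p hp using hst
  let s' : Fin m → Fin k := fun j => ψ (p (φ.symm j)).1
  let t' : Fin m → Fin k := fun j => ψ (p (φ.symm j)).2
  have hends' : ∀ e, s(s' (φ e), t' (φ e)) = (ends e).map ψ := by
    intro e
    simp only [s', t', Equiv.symm_apply_apply, hp e, Sym2.map_mk]
  have hends : ∀ j, ends (φ.symm j) = s(s' j, t' j).map ψ.symm := by
    intro j
    simp only [s', t', hp (φ.symm j), Sym2.map_mk, Equiv.symm_apply_apply]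
  have hb' : Bridgeless (fun j => s(s' j, t' j)) := by
    intro j a b hab
    have h1 : ends (φ.symm j) = s(ψ.symm a, ψ.symm b) := by
      rw [hends]
      have : s(s' j, t' j) = s(a, b) := hab
      rw [this, Sym2.map_mk]
    have h2 := hb _ _ _ h1
    have h3 := Relation.ReflTransGen.lift (p := fun x y => ∃ f, f ≠ j ∧ s(s' f, t' f) = s(x, y))
      ψ (fun x y (hxy : ∃ f, f ≠ φ.symm j ∧ ends f = s(x, y)) => by
        obtain ⟨f, hf, hfe⟩ := hxy
        refine ⟨φ f, ?_, ?_⟩
        · intro h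
          exact hf (by rw [← h, Equiv.symm_apply_apply])
        · rw [hends', hfe, Sym2.map_mk]) _ _ h2
    simpa [Function.onFun] using h3
  obtain ⟨L, h1, h2, h3⟩ := packaging_type H s' t' hb'
  refine ⟨fun i => (L i).map (fun C => φ.symm '' C), ?_, ?_, ?_⟩
  · intro i C hC
    obtain ⟨C', hC', rfl⟩ := List.mem_map.1 hC
    exact IsCircuit.map ψ.symm ψ.symm.injective φ.symm φ.symm.injective hends (h1 i C' hC')
  · intro i
    rw [List.pairwise_map]
    exact (h2 i).imp (fun hab => (Set.disjoint_image_iff φ.symm.injective).2 hab)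
  · intro e
    rw [← h3 (φ e)]
    congr 1
    ext i
    simp only [List.mem_map, exists_exists_and_eq_and, Set.mem_ofPred_eq]
    constructor
    · rintro ⟨C, hC, j, hj, rfl⟩
      exact ⟨C, hC, by simpa using hj⟩
    · rintro ⟨C, hC, he⟩
      exact ⟨C, hC, φ e, he, by simp⟩

/-- the cycle double cover property as a family of circuits -/
theorem double_cover_of_lists {V E : Type*} (ends : E → Sym2 V) (L : Fin 8 → List (Set E))
    (h1 : ∀ i, ∀ C ∈ L i, IsCircuit ends C) (h2 : ∀ i, (L i).Pairwise Disjoint)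
    (h3 : ∀ e, {i | ∃ C ∈ L i, e ∈ C}.ncard = 2) :
    ∃ (m : ℕ) (C : Fin m → Set E), (∀ j, IsCircuit ends (C j)) ∧ ∀ e, {j | e ∈ C j}.ncard = 2 := by
  classical
  let ι := Σ i : Fin 8, Fin (L i).length
  obtain ⟨m, ⟨φ⟩⟩ := Finite.exists_equiv_fin ι
  let F : ι → Set E := fun x => (L x.1).get x.2
  refine ⟨m, fun j => F (φ.symm j), ?_, ?_⟩
  · intro j
    exact h1 _ _ (List.get_mem _ _)
  · intro e
    have e1 : {j | e ∈ F (φ.symm j)}.ncard = {x : ι | e ∈ F x}.ncard := by
      rw [← Set.ncard_image_of_injective {x : ι | e ∈ F x} φ.injective]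
      congr 1
      ext j
      simp only [Set.mem_ofPred_eq, Set.mem_image]
      constructor
      · intro h
        exact ⟨_, h, by simp⟩
      · rintro ⟨x, hx, rfl⟩
        simpa using hx
    rw [e1, ← h3 e]
    have hinj : Set.InjOn (fun x : ι => x.1) {x : ι | e ∈ F x} := by
      rintro ⟨i, a⟩ ha ⟨i', b⟩ hb' hab
      obtain rfl : i = i' := hab
      have hpw := List.pairwise_iff_get.1 (h2 i)
      rcases lt_trichotomy a b with h | h | h
      · exact absurd hb' (Set.disjoint_left.1 (hpw a b h) ha)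
      · rw [h]
      · exact absurd ha (Set.disjoint_left.1 (hpw b a h) hb')
    rw [← Set.InjOn.ncard_image hinj]
    congr 1
    ext i
    simp only [Set.mem_image, Set.mem_ofPred_eq]
    constructor
    · rintro ⟨⟨i', a⟩, ha, rfl⟩
      exact ⟨_, List.get_mem _ _, ha⟩
    · rintro ⟨C, hC, he⟩
      obtain ⟨a, rfl⟩ := List.get_of_mem hC
      exact ⟨⟨i, a⟩, he, rfl⟩

end Pool.Agent.Helper37.CDC8
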